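import Pool.Agent.R67.SB2
import Pool.Agent.R67.SB3

/-!
# Odd stacked books are graceful

For all `m ≥ 1` and `n ≥ 3` the Cartesian product of the star with `2 m + 1` leaves and the path
with `n` vertices is graceful.

Let `k = 2 m + 1` be the number of leaves, `P = 4 m + 3 = 2 k + 1`, and let
`q = (n - 1) P + k` be the number of edges. The rows are numbered `0, …, n - 1`. The bipartition
class of the centre of the row `0` is called the lower class. Every vertex gets a number `pos`;
its label is `pos` in the lower class and `q - pos` in the upper class, so that an edge has the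
label `q - (sum of the two numbers)`, and the sums must be `0, …, q - 1`. From row `2` on the
numbers repeat with period two in the row, up to adding `P`, and up to an involution of the
leaves; the rows `0, 1, 2` are exceptional. The numbers are in `Pool.Agent.R67.SB1` and
`Pool.Agent.R67.SB2`.
-/

set_option autoImplicit false

namespace Pool.Agent.Results.MP_31789d_co.StackedBooks

open Pool.Agent.R67.SB SimpleGraph

/-- The star with `k` leaves: the centre is `none`, the leaves are `some j`. -/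
def star (k : ℕ) : SimpleGraph (Option (Fin k)) where
  Adj x y := x ≠ y ∧ (x = none ∨ y = none)
  symm := ⟨fun _ _ h => ⟨h.1.symm, h.2.symm⟩⟩
  loopless := ⟨fun _ h => h.1 rfl⟩

/-- The value `|f x - f y|` of the edge `x y`. -/
def edgeValue {V : Type} (f : V → ℕ) : Sym2 V → ℕ :=
  Sym2.lift ⟨fun x y => ((f x : ℤ) - (f y : ℤ)).natAbs, fun x y => by
    show ((f x : ℤ) - (f y : ℤ)).natAbs = ((f y : ℤ) - (f x : ℤ)).natAbs
    omega⟩

/-- `f` is a graceful labeling of the graph `G` with `q` edges: `f` is injective with values in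
`{0, …, q}`, and the values of the edges are exactly `1, …, q`, each attained once. -/
def IsGraceful {V : Type} (G : SimpleGraph V) (f : V → ℕ) : Prop :=
  Function.Injective f ∧
  (∀ v, f v ≤ G.edgeSet.ncard) ∧
  Set.BijOn (edgeValue f) G.edgeSet (Set.Icc 1 G.edgeSet.ncard)

theorem star_none_some {k : ℕ} (j : Fin k) : (star k).Adj none (some j) :=
  ⟨by simp, Or.inl rfl⟩

/-- Number of edges, upper bound. -/
theorem ncard_le (k N : ℕ) :
    ((star k) □ (pathGraph (N + 1))).edgeSet.ncard ≤ k * (N + 1) + (k + 1) * N := by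
  classical
  let φ : (Fin k × Fin (N + 1)) ⊕ (Option (Fin k) × Fin N) →
      Sym2 (Option (Fin k) × Fin (N + 1)) := fun z =>
    match z with
    | Sum.inl a => s((none, a.2), (some a.1, a.2))
    | Sum.inr a => s((a.1, a.2.castSucc), (a.1, a.2.succ))
  have hsub : ((star k) □ (pathGraph (N + 1))).edgeSet ⊆
      ↑(Finset.univ.image φ) := by
    intro e he
    induction e using Sym2.ind with
    | _ x y =>
      rw [mem_edgeSet, boxProd_adj] at he
      simp only [Finset.coe_image, Finset.coe_univ, Set.image_univ, Set.mem_range]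
      obtain ⟨x1, x2⟩ := x
      obtain ⟨y1, y2⟩ := y
      rcases he with ⟨h, h'⟩ | ⟨h, h'⟩
      · simp only at h h'
        subst h'
        obtain ⟨h1, h2⟩ := h
        rcases h2 with h2 | h2
        · subst h2
          rcases y1 with _ | j
          · exact absurd rfl h1
          · exact ⟨Sum.inl (j, x2), rfl⟩
        · subst h2
          rcases x1 with _ | j
          · exact absurd rfl h1
          · exact ⟨Sum.inl (j, x2), Sym2.eq_swap⟩
      · simp only at h h'
        subst h'
        rw [pathGraph_adj] at h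
        rcases h with h | h
        · refine ⟨Sum.inr (x1, ⟨x2, by omega⟩), ?_⟩
          have e1 : (⟨x2, by omega⟩ : Fin N).castSucc = x2 := Fin.ext rfl
          have e2 : (⟨x2, by omega⟩ : Fin N).succ = y2 := Fin.ext h
          show s((x1, (⟨x2, _⟩ : Fin N).castSucc), (x1, (⟨x2, _⟩ : Fin N).succ)) = _
          rw [e1, e2]
        · refine ⟨Sum.inr (x1, ⟨y2, by omega⟩), ?_⟩
          have e1 : (⟨y2, by omega⟩ : Fin N).castSucc = y2 := Fin.ext rfl
          have e2 : (⟨y2, by omega⟩ : Fin N).succ = x2 := Fin.ext h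
          show s((x1, (⟨y2, _⟩ : Fin N).castSucc), (x1, (⟨y2, _⟩ : Fin N).succ)) = _
          rw [e1, e2]
          exact Sym2.eq_swap
  calc ((star k) □ (pathGraph (N + 1))).edgeSet.ncard
      ≤ (↑(Finset.univ.image φ) : Set _).ncard := Set.ncard_le_ncard hsub (Finset.finite_toSet _)
    _ = (Finset.univ.image φ).card := Set.ncard_coe_finset _
    _ ≤ (Finset.univ : Finset ((Fin k × Fin (N + 1)) ⊕ (Option (Fin k) × Fin N))).card :=
          Finset.card_image_le
    _ = k * (N + 1) + (k + 1) * N := by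
        simp only [Finset.card_univ, Fintype.card_sum, Fintype.card_prod, Fintype.card_fin,
          Fintype.card_option]

variable {h c : ℕ} {s0 s1 s2 : Fin (2 * h + 1) → ℕ}

open Classical in
/-- The labeling. -/
noncomputable def lab (N c : ℕ) (s0 s1 s2 : Fin (2 * h + 1) → ℕ)
    (v : Option (Fin (2 * h + 1)) × Fin (N + 1)) : ℕ :=
  if IsLow v.1 (v.2 : ℕ) then pos c s0 s1 s2 v.1 v.2
  else N * (4 * h + 3) + 2 * h + 1 - pos c s0 s1 s2 v.1 v.2

theorem lab_inj (hh : 1 ≤ h) (B : Base h c s0 s1 s2) {N : ℕ} (hN : 2 ≤ N) :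
    Function.Injective (lab N c s0 s1 s2) := by
  intro v w e
  obtain ⟨v1, v2⟩ := v
  obtain ⟨w1, w2⟩ := w
  have hv := v2.2
  have hw := w2.2
  have hs := Lm_Hm (h := h) hN
  unfold lab at e
  simp only at e
  by_cases h1 : IsLow v1 (v2 : ℕ) <;> by_cases h2 : IsLow w1 (w2 : ℕ)
  · rw [if_pos h1, if_pos h2] at e
    obtain ⟨a1, a2⟩ := low_inj hh B h1 h2 e
    rw [a1, Fin.ext a2]
  · rw [if_pos h1, if_neg h2] at e
    have b1 := low_le hh B hN (show (v2 : ℕ) ≤ N by omega) h1
    have b2 := high_le hh B hN (show (w2 : ℕ) ≤ N by omega) h2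
    omega
  · rw [if_neg h1, if_pos h2] at e
    have b1 := high_le hh B hN (show (v2 : ℕ) ≤ N by omega) h1
    have b2 := low_le hh B hN (show (w2 : ℕ) ≤ N by omega) h2
    omega
  · rw [if_neg h1, if_neg h2] at e
    have b1 := high_le hh B hN (show (v2 : ℕ) ≤ N by omega) h1
    have b2 := high_le hh B hN (show (w2 : ℕ) ≤ N by omega) h2
    obtain ⟨a1, a2⟩ := high_inj hh B h1 h2 (by omega)
    rw [a1, Fin.ext a2]

theorem lab_le (hh : 1 ≤ h) (B : Base h c s0 s1 s2) {N : ℕ} (hN : 2 ≤ N)
    (v : Option (Fin (2 * h + 1)) × Fin (N + 1)) :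
    lab N c s0 s1 s2 v ≤ N * (4 * h + 3) + 2 * h + 1 := by
  have hv := v.2.2
  have hs := Lm_Hm (h := h) hN
  unfold lab
  by_cases h1 : IsLow v.1 (v.2 : ℕ)
  · rw [if_pos h1]
    have b1 := low_le hh B hN (show (v.2 : ℕ) ≤ N by omega) h1
    omega
  · rw [if_neg h1]
    omega

/-- The value of an edge between a lower and an upper vertex. -/
theorem value_eq (hh : 1 ≤ h) (B : Base h c s0 s1 s2) {N : ℕ} (hN : 2 ≤ N)
    {x y : Option (Fin (2 * h + 1))} {i k : Fin (N + 1)} {d : ℕ}
    (hx : IsLow x (i : ℕ)) (hy : ¬ IsLow y (k : ℕ))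
    (e : pos c s0 s1 s2 x i + pos c s0 s1 s2 y k + d = N * (4 * h + 3) + 2 * h + 1) :
    ((lab N c s0 s1 s2 (x, i) : ℤ) - (lab N c s0 s1 s2 (y, k) : ℤ)).natAbs = d := by
  have hi := i.2
  have hk := k.2
  have hs := Lm_Hm (h := h) hN
  have b1 := low_le hh B hN (show (i : ℕ) ≤ N by omega) hx
  have b2 := high_le hh B hN (show (k : ℕ) ≤ N by omega) hy
  unfold lab
  simp only
  rw [if_pos hx, if_neg hy]
  omega

/-- The value of an edge, where exactly one of the endpoints is in the lower class. -/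
theorem value_eq' (hh : 1 ≤ h) (B : Base h c s0 s1 s2) {N : ℕ} (hN : 2 ≤ N)
    {x y : Option (Fin (2 * h + 1))} {i k : Fin (N + 1)} {d : ℕ}
    (hxy : IsLow x (i : ℕ) ↔ ¬ IsLow y (k : ℕ))
    (e : pos c s0 s1 s2 x i + pos c s0 s1 s2 y k + d = N * (4 * h + 3) + 2 * h + 1) :
    ((lab N c s0 s1 s2 (x, i) : ℤ) - (lab N c s0 s1 s2 (y, k) : ℤ)).natAbs = d := by
  by_cases hx : IsLow x (i : ℕ)
  · exact value_eq hh B hN hx (hxy.1 hx) e
  · have hy : IsLow y (k : ℕ) := by
      by_contra hy
      exact hx (hxy.2 hy)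
    have := value_eq hh B hN hy hx (d := d) (by omega)
    omega

theorem result : ∀ m n : ℕ, 1 ≤ m → 3 ≤ n →
    ∃ f : Option (Fin (2 * m + 1)) × Fin n → ℕ,
      IsGraceful (star (2 * m + 1) □ pathGraph n) f := by
  intro h n hh hn
  obtain ⟨N, rfl⟩ : ∃ N, n = N + 1 := ⟨n - 1, by omega⟩
  have hN : 2 ≤ N := by omega
  obtain ⟨c, s0, s1, s2, B⟩ := exists_base hh
  set G := (star (2 * h + 1) □ pathGraph (N + 1)) with hG
  have hle : G.edgeSet.ncard ≤ N * (4 * h + 3) + 2 * h + 1 := by
    have := ncard_le (2 * h + 1) N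
    have e : (2 * h + 1) * (N + 1) + (2 * h + 1 + 1) * N = N * (4 * h + 3) + 2 * h + 1 := by ring
    rw [e] at this
    exact this
  have hfin : G.edgeSet.Finite := Set.toFinite _
  have hsurj : Set.Icc 1 (N * (4 * h + 3) + 2 * h + 1) ⊆
      edgeValue (lab N c s0 s1 s2) '' G.edgeSet := by
    intro d hd
    obtain ⟨hd1, hd2⟩ := hd
    rcases att_all (N := N) (v := N * (4 * h + 3) + 2 * h + 1 - d) hh B hN (by omega) with
      ⟨i, j, hi, e⟩ | ⟨i, hi, e⟩ | ⟨i, j, hi, e⟩
    · refine ⟨s((none, ⟨i, by omega⟩), (some j, ⟨i, by omega⟩)), ?_, ?_⟩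
      · rw [mem_edgeSet, hG, boxProd_adj]
        exact Or.inl ⟨star_none_some j, rfl⟩
      · refine value_eq' hh B hN ?_ ?_
        · simp only [IsLow]; omega
        · simp only [pos]; omega
    · refine ⟨s((none, ⟨i, by omega⟩), (none, ⟨i + 1, by omega⟩)), ?_, ?_⟩
      · rw [mem_edgeSet, hG, boxProd_adj]
        right
        refine ⟨?_, rfl⟩
        rw [pathGraph_adj]
        left
        rfl
      · refine value_eq' hh B hN ?_ ?_
        · simp only [IsLow]; omega
        · simp only [pos]; omega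
    · refine ⟨s((some j, ⟨i, by omega⟩), (some j, ⟨i + 1, by omega⟩)), ?_, ?_⟩
      · rw [mem_edgeSet, hG, boxProd_adj]
        right
        refine ⟨?_, rfl⟩
        rw [pathGraph_adj]
        left
        rfl
      · refine value_eq' hh B hN ?_ ?_
        · simp only [IsLow]; omega
        · simp only [pos]; omega
  have hc : (Set.Icc 1 (N * (4 * h + 3) + 2 * h + 1)).ncard = N * (4 * h + 3) + 2 * h + 1 := by
    rw [Set.ncard_eq_toFinset_card']
    simp
  have him : (edgeValue (lab N c s0 s1 s2) '' G.edgeSet).ncard ≤ G.edgeSet.ncard :=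
    Set.ncard_image_le hfin
  have hci : (Set.Icc 1 (N * (4 * h + 3) + 2 * h + 1)).ncard ≤
      (edgeValue (lab N c s0 s1 s2) '' G.edgeSet).ncard :=
    Set.ncard_le_ncard hsurj (hfin.image _)
  have hq : G.edgeSet.ncard = N * (4 * h + 3) + 2 * h + 1 := by omega
  have himage : edgeValue (lab N c s0 s1 s2) '' G.edgeSet =
      Set.Icc 1 (N * (4 * h + 3) + 2 * h + 1) :=
    (Set.eq_of_subset_of_ncard_le hsurj (by omega) (hfin.image _)).symm
  refine ⟨lab N c s0 s1 s2, lab_inj hh B hN, fun v => hq ▸ lab_le hh B hN v, ?_⟩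
  rw [hq, ← himage]
  refine Set.InjOn.bijOn_image ?_
  exact Set.injOn_of_ncard_image_eq (by omega) hfin

end Pool.Agent.Results.MP_31789d_co.StackedBooks
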